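import Mathlib
import Pool.Agent.Run7.h166.TS.Mul

/-!
# All positive integers as multipliers, in three lists

Primes `p` with `2 p - 1` prime are the solutions of `q - 1 = 2 (p - 1)`, `p, q` prime. So the question is
whether the multipliers `1` and `2` occur together: are `n + 1` and `2 n + 1` primes infinitely often? Say that
positive integers `v_1, …, v_k` occur together if `v_1 n + 1, …, v_k n + 1` are all prime for many `n` (at least
`N ^ (1 - η)` of the `n ≤ N`, for every `η > 0` and arbitrarily large `N`); then the shifted primes
`p_i - 1 = v_i n` are proportional to `v_1, …, v_k`. The prime `k`-tuples conjecture predicts that any finite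
set of multipliers occurs together.

(1) For every `k` there is `C` such that EVERY finite set `V` of positive integers, whatever its size and its
members, has the following property: all members of `V` with at most `C` exceptions can be arranged in THREE
lists such that any at most `k` successive members of a list occur together; moreover `u n + 1` is composite
at the same time for all `u ≤ R` outside `V`, for any given `R`. The same `C` serves for `v n + c` instead of
`v n + 1` and all integers `c`, if the members of `V` are prime to `c` (`c = -1`: Sophie Germain primes).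

(2) All but finitely many elements of every infinite set `V` of positive integers (for instance of the set of ALL
positive integers, or of the powers of two) can be arranged in three sequences such that for EVERY `k` any
`k` successive members of a sequence, from some point on, occur together, in the same sense. Moreover there are
three increasing sequences in `V` such that for every `k` each element of `V` with finitely many exceptions occurs
together with any at most `k` members, far enough out, of one of them.

So far a proportion of the multipliers of certain structured sets (boxes of products of prime powers, the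
powers of two) was known to occur together with `1`; here no multiplier is left out, up to `C` resp. finitely many
exceptions. There is no local condition, as `n = 0` gives the value `1`.

Proof. Coloured Maynard-Tao theorem with a constant above one quarter (starting files,
`Pool.Agent.TH899.UG.Uni.exactU`). (1) Lists with long cliques of forms at their ends are joined: if there are four
lists, then two of them are hit by primes many times, and they are joined after a rearrangement of their ends.
(2) Three nonprincipal ultrafilters on `V` absorb all but finitely many elements.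
-/

set_option autoImplicit false

namespace Pool.Agent.Results.MP_0fefc4_nt.AllMultipliersThreeLists

open Filter Finset

open Classical in
/-- the positive integers `n ≤ N` such that `v n + c` is prime for all `v ∈ w` and `u n + c` is not prime for all
positive integers `u ≤ R` outside `V` -/
noncomputable def places (c : ℤ) (V : Set ℕ) (R : ℕ) (w : Finset ℕ) (N : ℕ) : Finset ℕ :=
  (Icc 1 N).filter (fun n : ℕ => (∀ v ∈ w, ((v : ℤ) * n + c).toNat.Prime) ∧
    ∀ u : ℕ, 1 ≤ u → u ≤ R → u ∉ V → ¬ ((u : ℤ) * n + c).toNat.Prime)

/-- the numbers `v n + c`, `v ∈ w`, are prime together for many `n` -/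
def Together (c : ℤ) (V : Set ℕ) (w : Finset ℕ) : Prop := ∀ R : ℕ, ∀ η : ℝ, 0 < η →
  ∃ᶠ N : ℕ in atTop, (N : ℝ) ^ (1 - η) ≤ ((places c V R w N).card : ℝ)

/-- **Every set of multipliers in three lists whose windows occur together.** -/
theorem result :
    (∀ k : ℕ, ∃ C : ℕ, ∀ c : ℤ, ∀ V : Finset ℕ, (∀ v ∈ V, 1 ≤ v ∧ IsCoprime (v : ℤ) c) →
      ∃ e : Fin 3 → List ℕ, (∀ i, (e i).Nodup) ∧ (∀ i j, i ≠ j → List.Disjoint (e i) (e j)) ∧
        (∀ i, ∀ x ∈ e i, x ∈ V) ∧ (V.filter (fun x => ∀ i, x ∉ e i)).card ≤ C ∧
        ∀ i, ∀ w : List ℕ, w <:+: e i → w ≠ [] → w.length ≤ k → Together c (V : Set ℕ) w.toFinset) ∧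
    ∀ c : ℤ, ∀ V : Set ℕ, V.Infinite → (∀ v ∈ V, 1 ≤ v ∧ IsCoprime (v : ℤ) c) →
      (∃ h : Fin 3 → ℕ → ℕ, (∀ i, StrictMono (h i)) ∧ (∀ i n, h i n ∈ V) ∧
        Function.Injective (fun p : Fin 3 × ℕ => h p.1 p.2) ∧
        ∀ k : ℕ, {x ∈ V | ¬ ∃ i M, ∀ F : Finset ℕ, (∀ m ∈ F, M ≤ m) → F.card ≤ k →
          Together c V (insert x (F.image (h i)))}.Finite) ∧
      ∃ e : Fin 3 → ℕ → ℕ, (∀ i n, e i n ∈ V) ∧ Function.Injective (fun p : Fin 3 × ℕ => e p.1 p.2) ∧
        (V \ Set.range (fun p : Fin 3 × ℕ => e p.1 p.2)).Finite ∧
        ∀ k : ℕ, ∀ᶠ t in atTop, ∀ i, Together c V ((range k).image (fun j => e i (t + j))) := by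
  refine ⟨fun k => ?_, fun c V hV hVc => Run7.h166.TS.mul_inf c V hV hVc⟩
  obtain ⟨C, hC⟩ := Run7.h166.TS.mul_windows k
  refine ⟨C, fun c V hV => ?_⟩
  obtain ⟨e, h1, h2, h3, h4, h5⟩ := hC c V hV
  exact ⟨e, h1, h2, h3, le_trans (le_of_eq (by congr 1)) h4, h5⟩

end Pool.Agent.Results.MP_0fefc4_nt.AllMultipliersThreeLists
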