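import Mathlib
import Pool.Agent.Run7.h756.CC.AllPat

/-!
# Circles of multipliers with several constant terms at once: ratios of `p - 1` and of `p + 1`

For every `R` and `k` there are `C` and `B` such that for any integers `c_1, …, c_R`, EVERY finite set `V` and any
`R` injective maps `g_i` of `V` into the positive integers prime to `c_i`: all members of `V` with at most `C`
exceptions can be arranged in `m R` disjoint circles (`m 1 = 3`, `m 2 = 10`) such that for any (at most) `k`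
successive members `v_1, …, v_k` of a circle and every `i` all patterns of primes occur among the numbers
`g_i(v_1) n + c_i, …, g_i(v_k) n + c_i`, along narrow progressions of `n`. For `c = 1` and `c = -1` there is no
condition on `V`: in particular all members of `V` with at most `C` exceptions can be arranged in ten circles such
that for any two neighbours `s`, `t` both `(p - 1) / (q - 1) = s / t` and `(p + 1) / (q + 1) = s / t` for infinitely
many pairs of primes `p`, `q`. (The question is whether `2` is a ratio `(p - 1) / (q - 1)` infinitely often.)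
-/

set_option autoImplicit false

namespace Pool.Agent.Results.MP_0fefc4_nt.CirclesOfRatios

open Filter Finset
open Pool.Agent.Run7.h756.CC

open Classical in
/-- the number of the `1 ≤ n ≤ N` such that for each of the `l` numbers `n' = n, n + D, …, n + (l - 1) D` all
`a n' + c`, `a ∈ A`, are (positive) primes and no `b n' + c`, `b ∈ B`, is a prime -/
noncomputable def progressions (c : ℤ) (A B : Finset ℕ) (l D N : ℕ) : ℕ :=
  ((Icc 1 N).filter (fun n : ℕ => ∀ j < l, (∀ a ∈ A, ((a : ℤ) * ((n + j * D : ℕ) : ℤ) + c).toNat.Prime) ∧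
    ∀ b ∈ B, ¬ ((b : ℤ) * ((n + j * D : ℕ) : ℤ) + c).toNat.Prime)).card

/-- All patterns on `F` along narrow progressions: there is a subset `T` of `V` with at most `J` members which
contains `F` such that for every finite set `U` of positive integers prime to `c` disjoint from `T` and every
length `l` there is `C` such that for arbitrarily large `N` and EVERY subset `A` of `F` there is a difference
`1 ≤ D ≤ (log N) ^ C` for which at least `N / (log N) ^ C` progressions of length `l` have primes for the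
multipliers in `A` and no primes for the multipliers in `F \ A` and in `U`. -/
def AllPatterns (c : ℤ) (J : ℕ) (V F : Finset ℕ) : Prop := ∃ T ⊆ V, F ⊆ T ∧ T.card ≤ J ∧
  ∀ U : Finset ℕ, Disjoint U T → (∀ u ∈ U, 1 ≤ u ∧ IsCoprime (u : ℤ) c) → ∀ l : ℕ, ∃ C : ℕ, ∃ᶠ N : ℕ in atTop,
    ∀ A ⊆ F, ∃ D : ℕ, 1 ≤ D ∧ (D : ℝ) ≤ Real.log N ^ C ∧
      (N : ℝ) / Real.log N ^ C ≤ (progressions c A ((F \ A) ∪ U) l D N : ℝ)

/-- `m 0 = 1` and `m (R + 1) = ⌊18 * m R / 5⌋`: the numbers `1, 3, 10, 36, 129, ...` -/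
def m : ℕ → ℕ
  | 0 => 1
  | R + 1 => 18 * m R / 5

theorem m_eq (R : ℕ) : m R = Pool.Agent.R493.SI.mR R := by
  induction R with
  | zero => rfl
  | succ R ih =>
    show 18 * m R / 5 = 18 * Pool.Agent.R493.SI.mR R / 5
    rw [ih]

/-- All members of `V` with at most `C` exceptions are arranged in `D` disjoint circles (lists without
repetitions, read cyclically) such that any `k` successive members of a circle (all members, if there are fewer
than `k`) form a set with the property `G`. -/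
def Circles (V : Finset ℕ) (D C k : ℕ) (G : Finset ℕ → Prop) : Prop :=
  ∃ e : Fin D → List ℕ, (∀ i, (e i).Nodup) ∧ (∀ i j, i ≠ j → List.Disjoint (e i) (e j)) ∧
    (∀ i, ∀ v ∈ e i, v ∈ V) ∧ (V.filter (fun v => ∀ i, v ∉ e i)).card ≤ C ∧
    ∀ i j, e i ≠ [] → G ((((e i).rotate j).take k).toFinset)

theorem allPatterns_of_pats {c : ℤ} {J : ℕ} {V F : Finset ℕ} {g : ℕ → ℕ}
    (h : PatsJ J (V.image (fun v => ((g v : ℤ), c))) (F.image (fun v => ((g v : ℤ), c)))) :
    AllPatterns c J (V.image g) (F.image g) := by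
  classical
  obtain ⟨T', hTV, hFT, hTJ, h⟩ := h
  refine ⟨T'.image (fun z => z.1.toNat), ?_, ?_, card_image_le.trans hTJ, ?_⟩
  · intro x hx
    obtain ⟨z, hz, rfl⟩ := mem_image.1 hx
    obtain ⟨v, hv, rfl⟩ := mem_image.1 (hTV hz)
    simpa using mem_image_of_mem g hv
  · intro x hx
    obtain ⟨v, hv, rfl⟩ := mem_image.1 hx
    exact mem_image.2 ⟨((g v : ℤ), c), hFT (mem_image.2 ⟨v, hv, rfl⟩), by simp⟩
  intro U hU hU1 l
  obtain ⟨C, hC⟩ := h (U.image (fun u : ℕ => ((u : ℤ), c))) (by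
    intro u hu
    obtain ⟨z, hz, rfl⟩ := mem_image.1 hu
    exact ⟨by have := (hU1 z hz).1; show (0 : ℤ) < z; omega, (hU1 z hz).2,
      fun h => disjoint_left.1 hU hz (mem_image.2 ⟨_, h, by simp⟩)⟩) l
  refine ⟨C, hC.mono fun N hN A hA => ?_⟩
  obtain ⟨D, hD1, hD2, hD3⟩ := hN (A.image (fun a : ℕ => ((a : ℤ), c))) (by
    intro z hz
    obtain ⟨a, ha, rfl⟩ := mem_image.1 hz
    obtain ⟨v, hv, rfl⟩ := mem_image.1 (hA ha)
    exact mem_image.2 ⟨v, hv, rfl⟩)
  refine ⟨D, hD1, hD2, hD3.trans ?_⟩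
  rw [Nat.cast_le]
  unfold Pool.Agent.Y827.HN.cntX progressions
  refine card_le_card ?_
  intro n hn
  obtain ⟨hn1, hn2⟩ := mem_filter.1 hn
  obtain ⟨hn3, hn4⟩ := mem_Icc.1 hn1
  refine mem_filter.2 ⟨mem_Icc.2 ⟨by omega, hn4⟩, fun j hj => ?_⟩
  obtain ⟨h1, h2⟩ := hn2 j hj
  refine ⟨fun a ha => ?_, fun b hb => ?_⟩
  · exact h1 _ (mem_image_of_mem (fun a : ℕ => ((a : ℤ), c)) ha)
  · exact h2 ((b : ℤ), c) (by
      rcases mem_union.1 hb with hb | hb
      · obtain ⟨hb1, hb2⟩ := mem_sdiff.1 hb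
        refine mem_union_left _ (mem_sdiff.2 ⟨?_, fun h => ?_⟩)
        · obtain ⟨v, hv, rfl⟩ := mem_image.1 hb1
          exact mem_image.2 ⟨v, hv, rfl⟩
        · obtain ⟨a, ha, hab⟩ := mem_image.1 h
          simp only [Prod.mk.injEq, Nat.cast_inj, and_true] at hab
          exact hb2 (hab ▸ ha)
      · exact mem_union_right _ (mem_image_of_mem _ hb))

theorem log_pow_lt (M C : ℕ) : ∀ᶠ N : ℕ in atTop, (M : ℝ) * Real.log N ^ C < N := by
  have h := (Real.isLittleO_pow_log_id_atTop (n := C)).comp_tendsto tendsto_natCast_atTop_atTop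
  have h2 := h.def (c := 1 / ((M : ℝ) + 1)) (by positivity)
  filter_upwards [h2, eventually_ge_atTop 1] with N hN hN1
  simp only [Function.comp_apply, id_eq] at hN
  have hN0 : (1 : ℝ) ≤ N := by exact_mod_cast hN1
  have hl : 0 ≤ Real.log N := Real.log_nonneg hN0
  rw [Real.norm_of_nonneg (by positivity), Real.norm_of_nonneg (by positivity), one_div, ← div_eq_inv_mul,
    le_div_iff₀ (by positivity)] at hN
  rcases eq_or_lt_of_le (show 0 ≤ Real.log N ^ C by positivity) with h0 | h0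
  · rw [← h0]; linarith
  · nlinarith

/-- **Circles of multipliers.** (1) `R` constant terms and `R` families of multipliers. (2) The constant terms `1`
and `-1`: EVERY finite set of positive integers, ten circles. (3) Ratios of `p - 1` and of `p + 1`. -/
theorem result (k : ℕ) (hk : 1 ≤ k) :
    (∀ R : ℕ, ∃ C B : ℕ, ∀ (c : Fin R → ℤ) (V : Finset ℕ) (g : Fin R → ℕ → ℕ), (∀ i, Set.InjOn (g i) V) →
      (∀ i, ∀ v ∈ V, 1 ≤ g i v ∧ IsCoprime (g i v : ℤ) (c i)) →
      Circles V (m R) C k (fun w => ∀ i, AllPatterns (c i) B (V.image (g i)) (w.image (g i)))) ∧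
    (∃ C B : ℕ, ∀ V : Finset ℕ, (∀ v ∈ V, 1 ≤ v) →
      Circles V 10 C k (fun w => AllPatterns 1 B V w ∧ AllPatterns (-1) B V w)) ∧
    ∃ C : ℕ, ∀ V : Finset ℕ, (∀ v ∈ V, 1 ≤ v) →
      Circles V 10 C 2 (fun w => ∀ s ∈ w, ∀ t ∈ w, ∀ M : ℕ,
        (∃ p q : ℕ, M ≤ p ∧ p.Prime ∧ q.Prime ∧ t * (p - 1) = s * (q - 1)) ∧
        ∃ p q : ℕ, M ≤ p ∧ p.Prime ∧ q.Prime ∧ t * (p + 1) = s * (q + 1)) := by
  classical
  have main : ∀ k : ℕ, 1 ≤ k → ∀ R : ℕ, ∃ C B : ℕ, ∀ (c : Fin R → ℤ) (V : Finset ℕ) (g : Fin R → ℕ → ℕ),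
      (∀ i, Set.InjOn (g i) V) → (∀ i, ∀ v ∈ V, 1 ≤ g i v ∧ IsCoprime (g i v : ℤ) (c i)) →
      Circles V (m R) C k (fun w => ∀ i, AllPatterns (c i) B (V.image (g i)) (w.image (g i))) := by
    intro k hk R
    obtain ⟨C, B, h⟩ := pat_circles R k hk
    refine ⟨C, B, fun c V g hg hgc => ?_⟩
    obtain ⟨e, he1, he2, he3, he4, he5⟩ := h V (fun i v => ((g i v : ℤ), c i))
      (fun i v hv w hw hvw => by
        simp only [Prod.mk.injEq, Nat.cast_inj, and_true] at hvw
        exact hg i hv hw hvw)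
      (fun i v hv => ⟨by have := (hgc i v hv).1; show (0 : ℤ) < g i v; omega, (hgc i v hv).2⟩)
      (fun i p hp hpB => by
        by_cases hpc : (p : ℤ) ∣ c i
        · refine ⟨1, fun v hv hd => ?_⟩
          have h1 : (p : ℤ) ∣ (g i v : ℤ) := by
            have h2 : (p : ℤ) ∣ (g i v : ℤ) * 1 + c i := hd
            rw [mul_one] at h2
            exact (Int.dvd_add_left hpc).1 h2
          have h2 := ((hgc i v hv).2).isUnit_of_dvd' h1 hpc
          exact (Nat.prime_iff_prime_int.1 hp).not_isUnit h2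
        · refine ⟨0, fun v hv hd => hpc ?_⟩
          have h2 : (p : ℤ) ∣ (g i v : ℤ) * 0 + c i := hd
          rwa [mul_zero, zero_add] at h2)
    rw [m_eq]
    exact ⟨e, he1, he2, he3, he4, fun j l hne i => allPatterns_of_pats (he5 i j l hne)⟩
  have two : ∀ k : ℕ, 1 ≤ k → ∃ C B : ℕ, ∀ V : Finset ℕ, (∀ v ∈ V, 1 ≤ v) →
      Circles V 10 C k (fun w => AllPatterns 1 B V w ∧ AllPatterns (-1) B V w) := by
    intro k hk
    obtain ⟨C, B, h⟩ := main k hk 2
    refine ⟨C, B, fun V hV => ?_⟩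
    obtain ⟨e, he1, he2, he3, he4, he5⟩ := h ![1, -1] V (fun _ => id) (fun _ => Set.injOn_id _) (by
      intro i v hv
      refine ⟨hV v hv, ?_⟩
      fin_cases i
      · exact isCoprime_one_right
      · exact isCoprime_one_right.neg_right)
    refine ⟨e, he1, he2, he3, he4, fun i j hne => ?_⟩
    have h1 := he5 i j hne 0
    have h2 := he5 i j hne 1
    simp only [image_id] at h1 h2
    exact ⟨h1, h2⟩
  refine ⟨main k hk, two k hk, ?_⟩
  obtain ⟨C, B, h⟩ := two 2 (by norm_num)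
  refine ⟨C, fun V hV => ?_⟩
  obtain ⟨e, he1, he2, he3, he4, he5⟩ := h V hV
  refine ⟨e, he1, he2, he3, he4, fun i j hne s hs t ht M => ?_⟩
  have hmem : ∀ v ∈ (((e i).rotate j).take 2).toFinset, 1 ≤ v := by
    intro v hv
    rw [List.mem_toFinset] at hv
    exact hV v (he3 i v (List.mem_rotate.1 (List.mem_of_mem_take hv)))
  have hs1 := hmem s hs
  have ht1 := hmem t ht
  -- a large `n` with `s n + c` and `t n + c` prime
  have key : ∀ c : ℤ, AllPatterns c B V (((e i).rotate j).take 2).toFinset →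
      ∃ n : ℕ, M + 2 ≤ n ∧ ((s : ℤ) * n + c).toNat.Prime ∧ ((t : ℤ) * n + c).toNat.Prime := by
    intro c hc
    obtain ⟨T, -, -, -, hT⟩ := hc
    obtain ⟨C', hC'⟩ := hT ∅ (disjoint_empty_left _) (by simp) 1
    have hbig : ∀ᶠ N : ℕ in atTop, ((M + 2 : ℕ) : ℝ) * Real.log N ^ C' < N :=
      log_pow_lt (M + 2) C'
    obtain ⟨N, hN, hN3, hN4⟩ := (hC'.and_eventually ((eventually_ge_atTop 3).and hbig)).exists
    obtain ⟨D, hD1, -, hD3⟩ := hN {s, t} (by
      intro x hx
      rw [mem_insert, mem_singleton] at hx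
      rcases hx with rfl | rfl
      · exact hs
      · exact ht)
    have hlog : 1 ≤ Real.log N := Pool.Agent.Y827.RO.log_ge_one hN3
    have hlt : ((M + 2 : ℕ) : ℝ) < (progressions c {s, t} (((((e i).rotate j).take 2).toFinset \ {s, t}) ∪ ∅)
        1 D N : ℝ) := by
      refine lt_of_lt_of_le ?_ hD3
      rw [lt_div_iff₀ (by positivity)]
      exact hN4
    have hlt' : M + 2 < progressions c {s, t} (((((e i).rotate j).take 2).toFinset \ {s, t}) ∪ ∅) 1 D N := by
      exact_mod_cast hlt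
    unfold progressions at hlt'
    have h1 : (Icc 1 (M + 2)).card < _ := lt_of_le_of_lt (by simp) hlt'
    obtain ⟨n, hn, hn2⟩ := exists_mem_notMem_of_card_lt_card h1
    obtain ⟨hn3, hn4⟩ := mem_filter.1 hn
    have h2 := (hn4 0 (by norm_num)).1
    simp only [zero_mul, add_zero] at h2
    refine ⟨n, ?_, h2 s (by simp), h2 t (by simp)⟩
    by_contra hlt
    exact hn2 (mem_Icc.2 ⟨(mem_Icc.1 hn3).1, by omega⟩)
  obtain ⟨hp1, hp2⟩ := he5 i j hne
  constructor
  · obtain ⟨n, hn, h1, h2⟩ := key 1 hp1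
    have e1 : ((s : ℤ) * n + 1).toNat = s * n + 1 := by
      have : ((s : ℤ) * n + 1) = ((s * n + 1 : ℕ) : ℤ) := by push_cast; ring
      rw [this, Int.toNat_natCast]
    have e2 : ((t : ℤ) * n + 1).toNat = t * n + 1 := by
      have : ((t : ℤ) * n + 1) = ((t * n + 1 : ℕ) : ℤ) := by push_cast; ring
      rw [this, Int.toNat_natCast]
    rw [e1] at h1
    rw [e2] at h2
    refine ⟨s * n + 1, t * n + 1, ?_, h1, h2, ?_⟩
    · have : 1 * n ≤ s * n := Nat.mul_le_mul_right _ hs1
      omega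
    · simp only [Nat.add_sub_cancel]
      ring
  · obtain ⟨n, hn, h1, h2⟩ := key (-1) hp2
    have h3 : 1 ≤ s * n := Nat.mul_pos hs1 (by omega)
    have h4 : 1 ≤ t * n := Nat.mul_pos ht1 (by omega)
    have e1 : ((s : ℤ) * n + -1).toNat = s * n - 1 := by
      have : ((s : ℤ) * n + -1) = ((s * n - 1 : ℕ) : ℤ) := by push_cast [Nat.cast_sub h3]; ring
      rw [this, Int.toNat_natCast]
    have e2 : ((t : ℤ) * n + -1).toNat = t * n - 1 := by
      have : ((t : ℤ) * n + -1) = ((t * n - 1 : ℕ) : ℤ) := by push_cast [Nat.cast_sub h4]; ring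
      rw [this, Int.toNat_natCast]
    rw [e1] at h1
    rw [e2] at h2
    refine ⟨s * n - 1, t * n - 1, ?_, h1, h2, ?_⟩
    · have : 1 * n ≤ s * n := Nat.mul_le_mul_right _ hs1
      omega
    · rw [Nat.sub_add_cancel h3, Nat.sub_add_cancel h4]
      ring

end Pool.Agent.Results.MP_0fefc4_nt.CirclesOfRatios
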