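import Pool.Agent.Run7.h90.AU.Sm

set_option autoImplicit false

/-!
# Pairs `n, 2 n - 1` at thin families of residues modulo a prime

Let `p` be a large prime and let `(v_i)`, `i ∈ s`, be a family of residues modulo `p` whose exponential sums
`∑ e(ξ v_i / p)`, `ξ ≠ 0`, are at most `p ^ (-ε) |s|`; the family may be very thin. Examples: the values of a sparse
polynomial of arbitrary degree on a subgroup of order `p ^ η`, the values `c_1 g_1 ^ n + ... + c_k g_k ^ n`, `n < N`,
`N ≥ p ^ η`. The theorem is about the integers `n` congruent to a member of the family modulo `p` in an interval of length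
`L ≥ p ^ (1 - δ)`. The
pairs `n, 2 n - 1` of numbers without prime factors up to `z` have the frequency predicted by the conjecture of Bateman and
Horn for primes, with the constant `2 C₂`.

Proof: bound of Bourgain, Glibichuk and Konyagin in the form for recurrences and monomials (`Agent/Run7/h823/BK9`);
equidistribution in the residue classes modulo all integers up to `p ^ δ` and the fundamental lemma of the sieve
(`Agent/Run7/h90/AU`).
-/

namespace Pool.Agent.Results.MP_0fefc4_nt.PairsInSparseFamilies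

open Finset Filter Topology
open Pool.Agent.Run7.h90.AU (Formula Orders SparseSmall RecurrencesSmall)

/-- The partial products, over the primes `3 ≤ q ≤ z`, of `2 C₂`. -/
noncomputable def partialConstant (z : ℕ) : ℝ :=
  2 * ∏ q ∈ (Icc 3 z).filter Nat.Prime, ((q : ℝ) * ((q : ℝ) - 2) / ((q : ℝ) - 1) ^ 2)

/-- The numbers `n` and `2 n - 1` have the property `P`. -/
def Pair (P : ℕ → Prop) (n : ℕ) : Prop := P n ∧ P (2 * n - 1)

/-- constant terms of the linear forms -/
def a1 : Fin 2 → ℤ := ![0, -1]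

/-- leading coefficients of the linear forms -/
def d1 : Fin 2 → ℤ := ![1, 2]

theorem iff1 (P : ℕ → Prop) (n : ℕ) (hn : 1 ≤ n) :
    (∀ j, P (a1 j + d1 j * (n : ℤ)).natAbs) ↔ Pair P n := by
  unfold a1 d1 Pair
  simp only [Fin.forall_fin_succ, Fin.forall_fin_zero, Matrix.cons_val_zero, Matrix.cons_val_succ, and_true]
  have e0 : ((0 : ℤ) + 1 * (n : ℤ)).natAbs = n := by omega
  have e1 : ((-1 : ℤ) + 2 * (n : ℤ)).natAbs = 2 * n - 1 := by omega
  rw [e0, e1]

theorem nd1 : Pool.Agent.Run7.h90.AU.ND a1 d1 := by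
  refine Pool.Agent.Run7.h90.AU.nd_of (by decide) (by decide)
    (fun j => Int.isCoprime_iff_gcd_eq_one.2 (by revert j; decide)) ?_
  · intro l hl h
    have hl2 := hl.two_le
    have hcase : l = 2 := by omega
    subst hcase
    exact ⟨1, by decide⟩

theorem res1 : (Pool.Agent.Run7.h90.AU.Res a1 d1).natAbs = 2 := by decide

theorem om1 : Pool.Agent.Run7.h90.AU.om a1 d1 2 = 1 := by
  unfold Pool.Agent.Run7.h90.AU.om
  decide

theorem psing1 {z : ℕ} (hz : 2 ≤ z) : Pool.Agent.Run7.h90.AU.psing a1 d1 z = partialConstant z := by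
  rw [Pool.Agent.Run7.h90.AU.psing_exp nd1 2 (fun l hl h => by
    rw [res1] at h
    exact (Pool.Agent.Run7.h90.AU.sm2 hl h 1 (by norm_num)).trans (by norm_num)) hz]
  have e1 : Pool.Agent.Run7.h90.AU.psing a1 d1 2 = 2 / 1 := by
    unfold Pool.Agent.Run7.h90.AU.psing
    have e : (range (2 + 1)).filter Nat.Prime = {2} := by decide
    rw [e, prod_singleton, om1]
    norm_num
  have e2 : ∀ q ∈ (Icc (2 + 1) z).filter Nat.Prime, (1 - ((2 : ℕ) : ℝ) / q) / (1 - 1 / (q : ℝ)) ^ 2 =
      ((q : ℝ) * ((q : ℝ) - 2) / ((q : ℝ) - 1) ^ 2) := by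
    intro q hq
    rw [mem_filter, mem_Icc] at hq
    have h4 : (2 : ℝ) + 1 ≤ q := by exact_mod_cast hq.1.1
    have h1 : (q : ℝ) ≠ 0 := by linarith
    have h2 : (q : ℝ) - 1 ≠ 0 := by linarith
    have e : (1 : ℝ) - 1 / q = (q - 1) / q := by field_simp
    rw [e]
    field_simp
    push_cast
    ring
  unfold partialConstant
  rw [e1, prod_congr rfl e2]
  norm_num
  try ring

theorem result : ∃ D : ℝ,
    0 < D ∧ Tendsto partialConstant atTop (𝓝 D) ∧
    Formula 2 Pair D ∧ Orders 2 Pair ∧
    SparseSmall ∧ RecurrencesSmall := by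
  obtain ⟨E1, hE1, hl1⟩ := Pool.Agent.Run7.h90.AU.lim_of nd1
  have hC1 : Tendsto partialConstant atTop (𝓝 E1) := hl1.congr' (by
    filter_upwards [eventually_ge_atTop 2] with z hz
    exact psing1 hz)
  have F1 := Pool.Agent.Run7.h90.AU.formula_of nd1 iff1 hE1 hl1
  have O1 := Pool.Agent.Run7.h90.AU.orders_of nd1 iff1 hE1 hl1
  refine ⟨E1, hE1, hC1, F1, O1, Pool.Agent.Run7.h90.AU.sparse_small, Pool.Agent.Run7.h90.AU.rec_small⟩

end Pool.Agent.Results.MP_0fefc4_nt.PairsInSparseFamilies
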