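import Pool.Agent.Run7.h965.MT.Mult

/-!
# Products, power towers and systems of multipliers `m` with `q` and `m (q - 1) + 1` prime

The question is about the multiplier `m = 2` in `p - c = m (q - c)`, `c = 1`, with primes `p` and `q`.
Let `μ_{j,0}, μ_{j,1}, …` be sequences of integers `≥ 2` and `c_j` integers prime to all the `μ_{j,x}`
(for instance `c_j = 1` and any sequence), `j = 0, 1, …`, and let `h` be any function.  There are
nonempty finite sets `W_0 < W_1 < …` such that, with `M_{j,i} = ∏_{x ∈ W_i} μ_{j,x}`, for all `j`: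

* for all `j ≤ i_1 < i_2 < ⋯ < i_n` the product `m = M_{j,i_1} ⋯ M_{j,i_n}` and the power tower
  `m = M_{j,i_n} ^ (M_{j,i_{n-1}} ^ (⋯ ^ M_{j,i_1}))` satisfy `p - c_j = m (q - c_j)` for infinitely many
  pairs of primes;
* for all `r, k ≥ 1`, all exponents `g_0, …, g_{r-1} ≥ 1` and all `F_0 < F_1 < ⋯ < F_{rk-1}` in `[j, ∞)`,
  lying beyond an index `i` such that `r`, `k` and the exponents are at most `h b` for some `b ∈ W_i`:
  with `m_u = ∏_{l < r} (∏_{i ∈ F_{lk+u}} M_{j,i}) ^ g_l` for `u < k` there are infinitely many primes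
  `q_0` such that the numbers `q_{u+1} = c_j + m_u (q_u - c_j)`, `u < k`, are prime and no other form of
  a given finite set of linear forms has a prime value at `q_0`.

The Maynard-Tao theorem for several primes (`Pool.Agent.H361R2.mtz_exists`) and the theorem on block
sequences (`Pool.Agent.W68.Mil`) are from the starting files.
-/

set_option autoImplicit false

namespace Pool.Agent.Results.MP_0fefc4_nt.ProductsAndPowerTowers

open Finset

/-- There are infinitely many primes `q` for which `c + m (q - c)` is prime. -/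
def Often (c : ℤ) (m : ℕ) : Prop :=
  {q : ℕ | q.Prime ∧ ∃ p : ℕ, p.Prime ∧ (p : ℤ) - c = m * (q - c)}.Infinite

/-- The pair `(A, D)` with `A + D q = c + m (q - c)`. -/
def form (c : ℤ) (m : ℕ) : ℤ × ℤ := (c * (1 - m), m)

/-- For every finite set `E` of forms `A + D x`, `D ≥ 1`, there are infinitely many primes `q` such
that the forms in `E` with a prime value at `q` are exactly those which are equal to
`c + m (x - c)` for one of the `k + 1` products `m = m 0 * ⋯ * m (u - 1)`, `0 ≤ u ≤ k`. -/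
def ExactChain (c : ℤ) (k : ℕ) (m : ℕ → ℕ) : Prop :=
  ∀ E : Finset (ℤ × ℤ), (∀ e ∈ E, 1 ≤ e.2) →
    {q : ℕ | q.Prime ∧ ∀ e ∈ E, ((∃ p : ℕ, p.Prime ∧ (p : ℤ) = e.1 + e.2 * q) ↔
      ∃ u ≤ k, e = form c (∏ u' ∈ range u, m u'))}.Infinite

/-- Power towers: `tower [x, y, z] = x ^ (y ^ z)`. -/
def tower : List ℕ → ℕ
  | [] => 1
  | x :: l => x ^ tower l

theorem tower_eq (l : List ℕ) : tower l = Pool.Agent.Run7.h965.MT.tow l := by
  induction l with
  | nil => rfl
  | cons x l ih => rw [tower, Pool.Agent.Run7.h965.MT.tow, ih]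

theorem result (μ : ℕ → ℕ → ℕ) (hμ : ∀ j x, 2 ≤ μ j x) (c : ℕ → ℤ)
    (hc : ∀ j x, IsCoprime (μ j x : ℤ) (c j)) (h : ℕ → ℕ) :
    ∃ W : ℕ → Finset ℕ, (∀ i, (W i).Nonempty) ∧ (∀ i, ∀ x ∈ W i, ∀ y ∈ W (i + 1), x < y) ∧
      -- all finite products and all power towers, the largest index below
      (∀ (j : ℕ) (F : Finset ℕ), F.Nonempty → (∀ i ∈ F, j ≤ i) →
        (Often (c j) (∏ i ∈ F, ∏ x ∈ W i, μ j x) ∧
          Often (c j) (tower ((F.sort (· ≥ ·)).map fun i => ∏ x ∈ W i, μ j x))) ∧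
        ExactChain (c j) 1 (fun _ => ∏ i ∈ F, ∏ x ∈ W i, μ j x) ∧
        ExactChain (c j) 1 (fun _ => tower ((F.sort (· ≥ ·)).map fun i => ∏ x ∈ W i, μ j x))) ∧
      -- all systems
      ∀ (j k r : ℕ) (g : ℕ → ℕ), 1 ≤ r → (∀ l < r, 1 ≤ g l) →
        ∀ F : ℕ → Finset ℕ, (∀ s < r * k, (F s).Nonempty) → (∀ s < r * k, ∀ i ∈ F s, j ≤ i) →
          (∀ s, s + 1 < r * k → ∀ i ∈ F s, ∀ i' ∈ F (s + 1), i < i') →
          (∃ i, ∃ b ∈ W i, r ≤ h b ∧ k ≤ h b ∧ (∀ l < r, g l ≤ h b) ∧ ∀ i' ∈ F 0, i < i') →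
          ExactChain (c j) k
            (fun u => ∏ l ∈ range r, (∏ i ∈ F (l * k + u), ∏ x ∈ W i, μ j x) ^ g l) := by
  obtain ⟨W, h2, h3, h4, h5⟩ := Pool.Agent.Run7.h965.MT.main_mult μ hμ c hc h
  have hμ1 : ∀ j x, 1 ≤ μ j x := fun j x => by have := hμ j x; omega
  refine ⟨W, h2, h3, fun j F hF hj => ?_, h5⟩
  obtain ⟨h6, h7⟩ := h4 j F hF hj
  rw [← tower_eq] at h7
  refine ⟨⟨h6.inf ?_, h7.inf ?_⟩, h6, h7⟩
  · exact Nat.succ_le_of_lt (prod_pos fun i _ => prod_pos fun x _ => hμ1 j x)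
  · rw [tower_eq]
    refine Pool.Agent.Run7.h965.MT.tow_pos _ fun y hy => ?_
    obtain ⟨i, _, rfl⟩ := List.mem_map.1 hy
    exact Nat.succ_le_of_lt (prod_pos fun x _ => hμ1 j x)

end Pool.Agent.Results.MP_0fefc4_nt.ProductsAndPowerTowers
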